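import Mathlib

set_option autoImplicit false

open Set Topology

namespace Pool.Agent.Results.MP_04fd10_lc.NotOnCantorSpace

/-- `E` is a countable Borel equivalence relation. -/
def IsCBER {X : Type} [MeasurableSpace X] (E : X → X → Prop) : Prop :=
  Equivalence E ∧ MeasurableSet {p : X × X | E p.1 p.2} ∧ ∀ x, {y | E x y}.Countable

/-- `E` is Borel isomorphic to the orbit equivalence relation of a continuous action of a
countable group on the topological space `K`. -/
def RealizedOn {X : Type} [MeasurableSpace X] (E : X → X → Prop) (K : Type)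
    [TopologicalSpace K] : Prop :=
  ∃ (Γ : Type) (_ : Group Γ) (_ : Countable Γ) (_ : MulAction Γ K),
    (∀ γ : Γ, Continuous fun y : K => γ • y) ∧
    ∃ f : X → K, Function.Bijective f ∧ @Measurable X K _ (borel K) f ∧
      ∀ x y, E x y ↔ ∃ γ : Γ, γ • f x = f y

/-- `E` admits a compact action realization. -/
def AdmitsCompactRealization {X : Type} [MeasurableSpace X] (E : X → X → Prop) : Prop :=
  ∃ (K : Type) (_ : TopologicalSpace K), CompactSpace K ∧ TopologicalSpace.MetrizableSpace K ∧
    RealizedOn E K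

/-- The space: Cantor space with two isolated points. -/
abbrev Sp : Type := (ℕ → Bool) ⊕ Bool

/-- The relation: one class with two points, all other classes are singletons. -/
def Rel (x y : Sp) : Prop := x = y ∨ ((∃ a, x = Sum.inr a) ∧ ∃ b, y = Sum.inr b)

lemma rel_equiv : Equivalence Rel := by
  refine ⟨fun x => Or.inl rfl, ?_, ?_⟩
  · rintro x y (h | ⟨h1, h2⟩)
    · exact Or.inl h.symm
    · exact Or.inr ⟨h2, h1⟩
  · rintro x y z (rfl | ⟨h1, h2⟩) (rfl | ⟨h3, h4⟩)
    · exact Or.inl rfl
    · exact Or.inr ⟨h3, h4⟩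
    · exact Or.inr ⟨h1, h2⟩
    · exact Or.inr ⟨h1, h4⟩

/-- permutations of the two isolated points act on the space -/
@[reducible] def actSp : MulAction (Equiv.Perm Bool) Sp where
  smul σ := Sum.map id σ
  one_smul x := by rcases x with x | x <;> rfl
  mul_smul σ τ x := by rcases x with x | x <;> rfl

lemma dense_ne (w : ℕ → Bool) : Dense {v : ℕ → Bool | v ≠ w} := by
  classical
  rw [dense_iff_inter_open]
  rintro O hO ⟨v, hv⟩
  by_cases hvw : v = w
  · rw [isOpen_pi_iff] at hO
    obtain ⟨I, o, ho, hoO⟩ := hO v hv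
    obtain ⟨k, hk⟩ := Infinite.exists_notMem_finset I
    refine ⟨Function.update v k (!(v k)), hoO ?_, ?_⟩
    · intro i hi
      have : i ≠ k := by rintro rfl; exact hk hi
      rw [Function.update_of_ne this]
      exact (ho i hi).2
    · intro h
      have := congrFun h k
      rw [Function.update_self, hvw] at this
      cases hb : w k <;> simp [hb] at this
  · exact ⟨v, hv, hvw⟩

/-- There is a countable Borel equivalence relation on an uncountable standard Borel space which
admits a compact action realization, but none with underlying space the Cantor space. -/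
theorem result :
    ∃ (X : Type) (_ : MeasurableSpace X) (E : X → X → Prop),
      StandardBorelSpace X ∧ Uncountable X ∧ IsCBER E ∧ AdmitsCompactRealization E ∧
        ¬ RealizedOn E (ℕ → Bool) := by
  letI : MeasurableSpace Sp := borel Sp
  haveI : BorelSpace Sp := ⟨rfl⟩
  refine ⟨Sp, borel Sp, Rel, inferInstance, ?_, ⟨rel_equiv, ?_, ?_⟩, ?_, ?_⟩
  · haveI : Uncountable (ℕ → Bool) := by
      rw [← Cardinal.aleph0_lt_mk_iff]
      simp [Cardinal.aleph0_lt_continuum]
    exact Function.Injective.uncountable (f := (Sum.inl : (ℕ → Bool) → Sp)) Sum.inl_injective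
  · have h1 : IsClosed {p : Sp × Sp | p.1 = p.2} := isClosed_eq continuous_fst continuous_snd
    have h2 : IsClosed {x : Sp | ∃ a, x = Sum.inr a} := by
      have : {x : Sp | ∃ a, x = Sum.inr a} = range Sum.inr := by
        ext x
        exact ⟨fun ⟨a, h⟩ => ⟨a, h.symm⟩, fun ⟨a, h⟩ => ⟨a, h.symm⟩⟩
      rw [this]
      exact isClosed_range_inr
    have h3 : IsClosed {p : Sp × Sp | Rel p.1 p.2} := by
      have : {p : Sp × Sp | Rel p.1 p.2} = {p : Sp × Sp | p.1 = p.2} ∪
          (Prod.fst ⁻¹' {x : Sp | ∃ a, x = Sum.inr a} ∩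
            Prod.snd ⁻¹' {x : Sp | ∃ a, x = Sum.inr a}) := by
        ext p
        rfl
      rw [this]
      exact h1.union ((h2.preimage continuous_fst).inter (h2.preimage continuous_snd))
    exact h3.measurableSet
  · intro x
    have : {y | Rel x y} ⊆ {x} ∪ range Sum.inr := by
      rintro y (rfl | ⟨_, b, rfl⟩)
      · exact Or.inl rfl
      · exact Or.inr ⟨b, rfl⟩
    exact ((countable_singleton x).union (countable_range _)).mono this
  · refine ⟨Sp, inferInstance, inferInstance, inferInstance, Equiv.Perm Bool, inferInstance,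
      inferInstance, actSp, ?_, id, Function.bijective_id, measurable_id, ?_⟩
    · intro σ
      change Continuous (Sum.map id σ)
      exact continuous_id.sumMap continuous_of_discreteTopology
    · intro x y
      constructor
      · rintro (rfl | ⟨⟨a, rfl⟩, b, rfl⟩)
        · refine ⟨1, ?_⟩
          rcases x with x | x <;> rfl
        · refine ⟨Equiv.swap a b, ?_⟩
          change Sum.map id (Equiv.swap a b) (Sum.inr a) = Sum.inr b
          simp
      · rintro ⟨σ, h⟩
        change Sum.map id σ x = y at h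
        rcases x with x | a
        · exact Or.inl h
        · exact Or.inr ⟨⟨a, rfl⟩, σ a, h.symm⟩
  · rintro ⟨Γ, _, _, _, hcont, f, hf, _, hE⟩
    have hopen : IsOpen {y : ℕ → Bool | ∃ γ : Γ, γ • y ≠ y} := by
      have : {y : ℕ → Bool | ∃ γ : Γ, γ • y ≠ y} = ⋃ γ : Γ, {y : ℕ → Bool | γ • y ≠ y} := by
        ext y
        simp
      rw [this]
      exact isOpen_iUnion fun γ => isOpen_ne_fun (hcont γ) continuous_id
    have hpq : f (Sum.inr true) ≠ f (Sum.inr false) := fun h => by
      have := hf.1 h
      simp at this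
    have hmem : ∀ y ∈ {y : ℕ → Bool | ∃ γ : Γ, γ • y ≠ y},
        y = f (Sum.inr true) ∨ y = f (Sum.inr false) := by
      rintro y ⟨γ, hγ⟩
      obtain ⟨x, rfl⟩ := hf.2 y
      obtain ⟨x', hx'⟩ := hf.2 (γ • f x)
      have h1 : Rel x x' := (hE x x').2 ⟨γ, hx'.symm⟩
      rcases h1 with h1 | ⟨⟨a, rfl⟩, _⟩
      · rw [← h1] at hx'
        exact absurd hx'.symm hγ
      · cases a
        · exact Or.inr rfl
        · exact Or.inl rfl
    have hp : f (Sum.inr true) ∈ {y : ℕ → Bool | ∃ γ : Γ, γ • y ≠ y} := by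
      obtain ⟨γ, hγ⟩ := (hE (Sum.inr true) (Sum.inr false)).1 (Or.inr ⟨⟨_, rfl⟩, ⟨_, rfl⟩⟩)
      exact ⟨γ, by rw [hγ]; exact hpq.symm⟩
    have hO : IsOpen ({y : ℕ → Bool | ∃ γ : Γ, γ • y ≠ y} ∩ {f (Sum.inr false)}ᶜ) :=
      hopen.inter isOpen_compl_singleton
    obtain ⟨v, ⟨hv1, hv2⟩, hv3⟩ := (dense_ne (f (Sum.inr true))).inter_open_nonempty _ hO
      ⟨_, hp, hpq⟩
    rcases hmem v hv1 with h | h
    · exact hv3 h
    · exact hv2 h

end Pool.Agent.Results.MP_04fd10_lc.NotOnCantorSpace
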